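import Pool.Agent.H554.Addm
import Pool.Agent.H554.Final

/-!
# Menger equal to Scheepers does not imply that the Menger property is productive

Part 1 (in ZFC): the combinatorial statement `Phi R J par B` implies that every Menger set of
reals is Scheepers, and gives two Menger sets of reals whose product is not Menger.
Part 2: for suitable ground model objects `R`, `J`, `par`, `B` the statement `Phi R J par B` holds
in the extension by some forcing notion.
-/

namespace Pool.Agent.Results.MP_e47b01_lc.ConsistentlyNo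

open Pool.Agent.H554 Pool.Agent.Helper669.Forcing Pool.Agent.Helper914M

/-- The Scheepers property: for every sequence of open covers there are finite subfamilies of its
members such that every finite set of points is contained in the union of one of them. -/
def ScheepersSp (Z : Type) [TopologicalSpace Z] : Prop :=
  ∀ U : ℕ → Set (Set Z), (∀ n, (∀ u ∈ U n, IsOpen u) ∧ ⋃₀ U n = Set.univ) →
    ∃ F : ℕ → Set (Set Z), (∀ n, F n ⊆ U n ∧ (F n).Finite) ∧
      ∀ S : Set Z, S.Finite → ∃ n, S ⊆ ⋃₀ F n

theorem scheepers (h : rN < dN ∧ dN ≤ addM) (X : Set ℝ) (hX : MengerSp X) : ScheepersSp X := by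
  obtain ⟨𝒱, h𝒱⟩ := main2.1 h
  intro U hU
  obtain ⟨F, hF, hF2⟩ := h𝒱 X hX U hU
  refine ⟨F, hF, fun S hS => ?_⟩
  have h1 : (⋂ z ∈ S, {n | z ∈ ⋃₀ F n}) ∈ 𝒱 := (Filter.biInter_mem hS).2 fun z _ => hF2 z
  obtain ⟨n, hn⟩ := Ultrafilter.nonempty_of_mem h1
  exact ⟨n, fun z hz => Set.mem_iInter₂.1 hn z hz⟩

/-- It is consistent that every Menger set of reals is Scheepers and the Menger property is not
productive: a hypothesis implying this (first part) is forced (second part). -/
theorem result :
    (∀ (R J : Type) (_ : LinearOrder J) (par : J → Bool) (B : R → Set ℕ), Phi R J par B →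
      (∀ X : Set ℝ, MengerSp X → ScheepersSp X) ∧
        ∃ X Y : Set ℝ, MengerSp X ∧ MengerSp Y ∧ ¬ MengerSp (X × Y)) ∧
    ∃ (R J : Type) (_ : LinearOrder J) (par : J → Bool) (B : R → Set ℕ) (P : Type)
      (_ : Preorder P), Nonempty P ∧ ∀ p : P, p ∈ ForcedPhi P R J par B :=
  ⟨fun _ _ _ _ _ h => ⟨scheepers (Am.cardinals h), Am.transfer (main_zfc _ _ _ _ _ h).2⟩,
    main_forced⟩

end Pool.Agent.Results.MP_e47b01_lc.ConsistentlyNo
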